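import Pool.Agent.MCA.CSQ
import Pool.Agent.MGF.FIN3
import Pool.Agent.MTR.ZFI
/-!
Assembly: from the certificates of the triangles and of the squares to the cells.
-/
set_option autoImplicit false

open MeasureTheory Set Metric Pool.Agent.MEIS Pool.Agent.MSQ Pool.Agent.MGE Pool.Agent.MGF Pool.Agent.MTR Pool.Agent.MCA

namespace Pool.Agent.MCB

/-- the statement of a triangle certificate -/
def TriC (F : ℝ → ℝ → ℝ → ℝ → ℝ) (ln ld bn bd : ℕ) (P : ℝ) : Prop :=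
  ∀ (T : E → ℝ) (β : ℝ), TrHyp T β → inR (rgOf ln ld bn bd) β → sF0 F T + sF1 F T + sF2 F T + P ≤ CN T

/-- budget of a cell -/
def bOK (Ds ps Db pb : ℕ) (ks kd : Int) : Bool :=
  decide (0 < Ds) && decide (0 < Db) && decide (0 < kd) && decide (0 ≤ ks) &&
    decide (72000 * ps * Db * kd * 10 ^ 8 + 3 * 141421357 * ks * Ds * Db ≤ 24000 * pb * Ds * kd * 10 ^ 8)

theorem bOK_tot {Ds ps Db pb : ℕ} {ks kd : Int} (h : bOK Ds ps Db pb ks kd = true) :
    3 * (24000 * (ps : ℝ) / (√2 * Ds)) + 3 * ((ks : ℝ) / kd) ≤ 24000 * (pb : ℝ) / (√2 * Db) := by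
  unfold bOK at h
  simp only [Bool.and_eq_true, decide_eq_true_eq] at h
  obtain ⟨⟨⟨⟨h1, h2⟩, h3⟩, h4⟩, h5⟩ := h
  have r1 : (0 : ℝ) < Ds := by exact_mod_cast h1
  have r2 : (0 : ℝ) < Db := by exact_mod_cast h2
  have r3 : (0 : ℝ) < kd := by exact_mod_cast h3
  have r4 : (0 : ℝ) ≤ ks := by exact_mod_cast h4
  have r5 : (72000 : ℝ) * ps * Db * kd * 10 ^ 8 + 3 * 141421357 * ks * Ds * Db ≤
      24000 * pb * Ds * kd * 10 ^ 8 := by exact_mod_cast h5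
  have s2 : √2 ≤ (141421357 : ℝ) / 10 ^ 8 := by
    rw [Real.sqrt_le_left (by norm_num)]
    norm_num
  have s0 : (0 : ℝ) < √2 := by positivity
  have e : 24000 * (pb : ℝ) / (√2 * Db) - (3 * (24000 * (ps : ℝ) / (√2 * Ds)) + 3 * ((ks : ℝ) / kd)) =
      (24000 * pb * Ds * kd - 72000 * ps * Db * kd - 3 * √2 * ks * Ds * Db) / (√2 * Ds * Db * kd) := by
    field_simp
    ring
  have k : 3 * √2 * (ks : ℝ) * Ds * Db ≤ 3 * (141421357 / 10 ^ 8) * ks * Ds * Db := by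
    gcongr
  have n : 0 ≤ (24000 * (pb : ℝ) * Ds * kd - 72000 * ps * Db * kd - 3 * √2 * ks * Ds * Db) /
      (√2 * Ds * Db * kd) := by
    apply div_nonneg _ (by positivity)
    linarith
  rw [← e] at n
  linarith

/-- symmetric cell -/
theorem hc_sym (c : Sqd) (hc : c.Ok) (bb ks kd : Int) (hq : c.IsC fun _ => qB bb) (hk : kOK c ks kd = true)
    (h12 : c.F1 = c.F2) (Fb Fs : FD) (e1 : FFd Fb = FL c.DF c.F2) (e2 : FFd Fs = FL c.DF c.F2)
    (hev : (evenL Fs.f0 && evenL Fs.f1 && oddL Fs.f2 && evenL Fs.f3 && evenL Fs.f4 && evenL Fs.f5 && oddL Fs.f6) = true)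
    (Ds ps Db pb ln ld bn bd : ℕ) (hs : TriC (FFd Fs) 0 1 bn bd (24000 * payOf true ps / (√2 * Ds)))
    (hb : TriC (FFd Fb) ln ld bn bd (24000 * payOf false pb / (√2 * Db)))
    (hbk : bOK Ds ps Db pb ks kd = true) (hr : (0 < ld ∧ 0 < bd) ∧ bb * bd = 100000 * (bn : Int))
    (m : ℝ) (m1 : (ln : ℝ) / ld ≤ m) (m2 : m ≤ (bn : ℝ) / bd) : HasCell m := by
  obtain ⟨⟨ld0, bd0⟩, hbb⟩ := hr
  have q1 : (0 : ℝ) < ld := by exact_mod_cast ld0
  have q2 : (0 : ℝ) < bd := by exact_mod_cast bd0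
  have q3 : (bb : ℝ) / 100000 = bn / bd := by
    rw [div_eq_div_iff (by norm_num) q2.ne']
    have : (bb : ℝ) * bd = 100000 * bn := by exact_mod_cast hbb
    linarith
  have hsym : Fsym (FL c.DF c.F2) := by
    rw [← e2]
    exact FF_sym _ _ _ _ _ _ _ _ hev
  have hcont : Continuous fun z : ℝ × ℝ × ℝ × ℝ => FL c.DF c.F2 z.1 z.2.1 z.2.2.1 z.2.2.2 := FF_cont _ _ _ _ _ _ _ _
  refine Or.inl ⟨FL c.DF c.F2, 24000 * (ps : ℝ) / (√2 * Ds), 24000 * (pb : ℝ) / (√2 * Db), (ks : ℝ) / kd,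
    (ln : ℝ) / ld, (bn : ℝ) / bd, ⟨hsym, hcont, ?_, ?_, ?_, bOK_tot hbk⟩, by positivity, m1, m2⟩
  · intro T b hT hb1
    have h0 : 0 ≤ b := by
      have := hT.nonneg (pt 1 1 1) (by simp [pt]) (by simp [pt]) (by simp [pt])
      rwa [hT.cen] at this
    have := hs T b hT ⟨by simpa [rgOf] using h0, by
      have := mul_le_mul_of_nonneg_left hb1 q2.le
      rw [mul_div_cancel₀ _ q2.ne'] at this
      simpa [rgOf] using this⟩
    rw [e2] at this
    have e : 24000 * ((payOf true ps : ℤ) : ℝ) / (√2 * Ds) = -(24000 * (ps : ℝ) / (√2 * Ds)) := by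
      simp [payOf]
      ring
    rw [e] at this
    linarith
  · intro T b hT hb0 hb1
    have := hb T b hT ⟨by
      have := mul_le_mul_of_nonneg_left hb0 q1.le
      rw [mul_div_cancel₀ _ q1.ne'] at this
      simpa [rgOf] using this, by
      have := mul_le_mul_of_nonneg_left hb1 q2.le
      rw [mul_div_cancel₀ _ q2.ne'] at this
      simpa [rgOf] using this⟩
    rw [e1] at this
    have e : 24000 * ((payOf false pb : ℤ) : ℝ) / (√2 * Db) = 24000 * (pb : ℝ) / (√2 * Db) := by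
      simp [payOf]
    rw [e] at this
    exact this
  · intro J hJ _
    rw [← q3] at hJ
    exact cb_sym c hc bb ks kd hq hk h12 hsym hcont J hJ

/-- asymmetric cell -/
theorem hc_asym (c : Sqd) (hc : c.Ok) (be bb bs ks kd : Int) (hq : c.IsC (qA be bb bs)) (hk : kOK c ks kd = true)
    (Fb Fs : FD) (e1 : FFd Fb = FL c.DF c.F1) (e2 : FFd Fs = FL c.DF c.F2)
    (hev1 : (evenL Fb.f0 && evenL Fb.f1 && oddL Fb.f2 && evenL Fb.f3 && evenL Fb.f4 && evenL Fb.f5 && oddL Fb.f6) = true)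
    (hev2 : (evenL Fs.f0 && evenL Fs.f1 && oddL Fs.f2 && evenL Fs.f3 && evenL Fs.f4 && evenL Fs.f5 && oddL Fs.f6) = true)
    (Ds ps Db pb ln ld bn bd sn sd : ℕ) (hs : TriC (FFd Fs) 0 1 sn sd (24000 * payOf true ps / (√2 * Ds)))
    (hb : TriC (FFd Fb) ln ld bn bd (24000 * payOf false pb / (√2 * Db)))
    (hbk : bOK Ds ps Db pb ks kd = true)
    (hr : (0 < ld ∧ 0 < bd ∧ 0 < sd) ∧ be * ld = 100000 * (ln : Int) ∧ bb * bd = 100000 * (bn : Int) ∧
      bs * sd = 100000 * (sn : Int))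
    (m : ℝ) (m1 : (ln : ℝ) / ld ≤ m) (m2 : m ≤ (bn : ℝ) / bd) (m3 : m ≤ (sn : ℝ) / sd ∨ 143 / 1000 - m ≤ (sn : ℝ) / sd) :
    HasCell m := by
  obtain ⟨⟨ld0, bd0, sd0⟩, hbe, hbb, hbs⟩ := hr
  have q1 : (0 : ℝ) < ld := by exact_mod_cast ld0
  have q2 : (0 : ℝ) < bd := by exact_mod_cast bd0
  have q4 : (0 : ℝ) < sd := by exact_mod_cast sd0
  have q3 : (bb : ℝ) / 100000 = bn / bd := by
    rw [div_eq_div_iff (by norm_num) q2.ne']
    have : (bb : ℝ) * bd = 100000 * bn := by exact_mod_cast hbb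
    linarith
  have q5 : (be : ℝ) / 100000 = ln / ld := by
    rw [div_eq_div_iff (by norm_num) q1.ne']
    have : (be : ℝ) * ld = 100000 * ln := by exact_mod_cast hbe
    linarith
  have q6 : (bs : ℝ) / 100000 = sn / sd := by
    rw [div_eq_div_iff (by norm_num) q4.ne']
    have : (bs : ℝ) * sd = 100000 * sn := by exact_mod_cast hbs
    linarith
  have hsym1 : Fsym (FL c.DF c.F1) := by
    rw [← e1]
    exact FF_sym _ _ _ _ _ _ _ _ hev1
  have hsym2 : Fsym (FL c.DF c.F2) := by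
    rw [← e2]
    exact FF_sym _ _ _ _ _ _ _ _ hev2
  have hcont1 : Continuous fun z : ℝ × ℝ × ℝ × ℝ => FL c.DF c.F1 z.1 z.2.1 z.2.2.1 z.2.2.2 := FF_cont _ _ _ _ _ _ _ _
  have hcont2 : Continuous fun z : ℝ × ℝ × ℝ × ℝ => FL c.DF c.F2 z.1 z.2.1 z.2.2.1 z.2.2.2 := FF_cont _ _ _ _ _ _ _ _
  refine Or.inr ⟨FL c.DF c.F1, FL c.DF c.F2, 24000 * (ps : ℝ) / (√2 * Ds), 24000 * (pb : ℝ) / (√2 * Db), (ks : ℝ) / kd,
    (ln : ℝ) / ld, (bn : ℝ) / bd, (sn : ℝ) / sd, ⟨hsym1, hsym2, hcont1, hcont2, ?_, ?_, ?_, bOK_tot hbk⟩, m1, m2, m3⟩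
  · intro T b hT hb1
    have h0 : 0 ≤ b := by
      have := hT.nonneg (pt 1 1 1) (by simp [pt]) (by simp [pt]) (by simp [pt])
      rwa [hT.cen] at this
    have := hs T b hT ⟨by simpa [rgOf] using h0, by
      have := mul_le_mul_of_nonneg_left hb1 q4.le
      rw [mul_div_cancel₀ _ q4.ne'] at this
      simpa [rgOf] using this⟩
    rw [e2] at this
    have e : 24000 * ((payOf true ps : ℤ) : ℝ) / (√2 * Ds) = -(24000 * (ps : ℝ) / (√2 * Ds)) := by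
      simp [payOf]
      ring
    rw [e] at this
    linarith
  · intro T b hT hb0 hb1
    have := hb T b hT ⟨by
      have := mul_le_mul_of_nonneg_left hb0 q1.le
      rw [mul_div_cancel₀ _ q1.ne'] at this
      simpa [rgOf] using this, by
      have := mul_le_mul_of_nonneg_left hb1 q2.le
      rw [mul_div_cancel₀ _ q2.ne'] at this
      simpa [rgOf] using this⟩
    rw [e1] at this
    have e : 24000 * ((payOf false pb : ℤ) : ℝ) / (√2 * Db) = 24000 * (pb : ℝ) / (√2 * Db) := by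
      simp [payOf]
    rw [e] at this
    exact this
  · intro J b1 b2 b3 b4 hJ hL h1 h1' g2 g3 g4 k2 k3 k4 hsum
    rw [← q3] at h1'
    rw [← q5] at h1
    rw [← q6] at k2 k3 k4
    exact cb_asym c hc be bb bs ks kd hq hk hsym1 hsym2 hcont1 hcont2 J b1 b2 b3 b4 hJ hL h1 h1' g2 g3 g4 k2 k3 k4 hsum

/-- homogeneous cell at `b = 0` -/
theorem hc_zero (F : FD) (hev : (evenL F.f0 && evenL F.f1 && oddL F.f2 && evenL F.f3 && evenL F.f4 && evenL F.f5 &&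
    oddL F.f6) = true) (bn bd : ℕ) (hbd : 0 < bd)
    (ht : ∀ (T : E → ℝ) (β : ℝ), TrHyp T β → inR (rgOf 0 1 bn bd) β → sF0 (FFd F) T + sF1 (FFd F) T + sF2 (FFd F) T ≤ CN T)
    (hsq : ∀ J : Jet, SqHyp J ((bn : ℝ) / bd) → 1 / 2 ≤ J.f (0, 0) →
      -(sXp (FFd F) J + sXm (FFd F) J + sYp (FFd F) J + sYm (FFd F) J) - 0 ≤ JM J)
    (m : ℝ) (m0 : 0 ≤ m) (m1 : m ≤ (bn : ℝ) / bd) : HasCell m := by
  have q2 : (0 : ℝ) < bd := by exact_mod_cast hbd
  have hT : ∀ (T : E → ℝ) (b : ℝ), TrHyp T b → b ≤ (bn : ℝ) / bd →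
      sF0 (FFd F) T + sF1 (FFd F) T + sF2 (FFd F) T ≤ CN T := by
    intro T b hT hb1
    have h0 : 0 ≤ b := by
      have := hT.nonneg (pt 1 1 1) (by simp [pt]) (by simp [pt]) (by simp [pt])
      rwa [hT.cen] at this
    exact ht T b hT ⟨by simpa [rgOf] using h0, by
      have := mul_le_mul_of_nonneg_left hb1 q2.le
      rw [mul_div_cancel₀ _ q2.ne'] at this
      simpa [rgOf] using this⟩
  refine Or.inl ⟨FFd F, 0, 0, 0, 0, (bn : ℝ) / bd, ⟨FF_sym _ _ _ _ _ _ _ _ hev, FF_cont _ _ _ _ _ _ _ _, ?_, ?_, hsq,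
    by norm_num⟩, le_refl _, m0, m1⟩
  · intro T b h h1
    have := hT T b h h1
    linarith
  · intro T b h _ h1
    have := hT T b h h1
    linarith

/-- the theorem from the cells -/
theorem fin_all (hA : ∀ m : ℝ, 0 ≤ m → m ≤ 3 / 1000 → HasCell m)
    (h0 : ∀ m : ℝ, 3 / 1000 ≤ m → m ≤ 6 / 1000 → HasCell m)
    (h1 : ∀ m : ℝ, 6 / 1000 ≤ m → m ≤ 1 / 100 → HasCell m)
    (h2 : ∀ m : ℝ, 1 / 100 ≤ m → m ≤ 3 / 100 → HasCell m)
    (h3 : ∀ m : ℝ, 3 / 100 ≤ m → m ≤ 6 / 100 → HasCell m)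
    (h4 : ∀ m : ℝ, 6 / 100 ≤ m → m ≤ 715 / 10000 → HasCell m)
    (h5 : ∀ m : ℝ, 715 / 10000 ≤ m → m ≤ 81 / 1000 → HasCell m)
    (h6 : ∀ m : ℝ, 81 / 1000 ≤ m → m ≤ 98 / 1000 → HasCell m)
    (h7 : ∀ m : ℝ, 98 / 1000 ≤ m → m ≤ 143 / 1000 → HasCell m)
    (C : Set (EuclideanSpace ℝ (Fin 3))) (k1 : C.Nonempty) (k2 : IsCompact C) (k3 : Convex ℝ C)
    (k4 : ∀ u : EuclideanSpace ℝ (Fin 3), ‖u‖ = 1 →
        sSup ((fun x => @inner ℝ (EuclideanSpace ℝ (Fin 3)) _ x u) '' C)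
          - sInf ((fun x => @inner ℝ (EuclideanSpace ℝ (Fin 3)) _ x u) '' C) = 1) :
    ENNReal.ofReal ((2 / 3 - Real.sqrt 3 / 4 * Real.arccos (1 / 3)) * Real.pi) ≤ MeasureTheory.volume C := by
  refine full3 (fun m m0 m1 => ?_) ⟨k1, k2, k3, k4⟩
  rcases le_total m (3 / 1000) with ha | ha
  · exact hA m m0 ha
  rcases le_total m (6 / 1000) with hb | hb
  · exact h0 m ha hb
  rcases le_total m (1 / 100) with hc | hc
  · exact h1 m hb hc
  rcases le_total m (3 / 100) with hd | hd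
  · exact h2 m hc hd
  rcases le_total m (6 / 100) with he | he
  · exact h3 m hd he
  rcases le_total m (715 / 10000) with hf | hf
  · exact h4 m he hf
  rcases le_total m (81 / 1000) with hg | hg
  · exact h5 m hf hg
  rcases le_total m (98 / 1000) with hh | hh
  · exact h6 m hg hh
  · exact h7 m hh m1

end Pool.Agent.MCB
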