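import Pool.Agent.MCB.ASM
import Pool.Agent.MCB.A.S
import Pool.Agent.MTC.A.C
/-!
Cell A: the assembly of the two sides.
-/
set_option autoImplicit false

open Pool.Agent.MSQ Pool.Agent.MGF Pool.Agent.MTR Pool.Agent.MCA Pool.Agent.MEIS Pool.Agent.MGE

namespace Pool.Agent.MCB

theorem cell_A (m : ℝ) (h1 : 0 ≤ m) (h2 : m ≤ 3 / 1000) : HasCell m := by
  refine hc_zero MTC.A.F MTC.A.ev 3 1000 (by norm_num) (fun _ _ h hβ => MTC.A.cert h hβ) (fun J hJ hc => ?_) m h1 ?_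
  · have e : ((3 : ℕ) : ℝ) / ((1000 : ℕ) : ℝ) = 3 / 1000 := by norm_num
    rw [e] at hJ
    exact A.sq_fin J hJ hc
  · norm_num
    linarith

end Pool.Agent.MCB
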