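import Pool.Agent.MCB.ASM
import Pool.Agent.MCD.A2.OK
import Pool.Agent.MTC.A2b.C
import Pool.Agent.MTC.A2s.C
/-!
Cell A2: the assembly of the two sides.
-/
set_option autoImplicit false

open Pool.Agent.MSQ Pool.Agent.MGF Pool.Agent.MTR Pool.Agent.MCA Pool.Agent.MEIS Pool.Agent.MGE

namespace Pool.Agent.MCB

theorem cell_A2 (m : ℝ) (h1 : 6 / 100 ≤ m) (h2 : m ≤ 715 / 10000) : HasCell m := by
  refine hc_asym MCD.A2.sq MCD.A2.ok 6000 7150 7150 17344170 10000000000 MCD.A2.isC MCD.A2.kok MTC.A2b.F MTC.A2s.F rfl rfl MTC.A2b.ev MTC.A2s.ev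
    MTC.A2s.g.D 1620 MTC.A2b.g.D 89154 6 100 715 10000 715 10000 (fun _ _ h hβ => MTC.A2s.cert h hβ)
    (fun _ _ h hβ => MTC.A2b.cert h hβ) (by decide +kernel) (by decide +kernel) m ?_ ?_ ?_
  · push_cast
    linarith
  · push_cast
    linarith
  · left
    push_cast
    linarith

end Pool.Agent.MCB
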