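import Pool.Agent.MCB.ASM
import Pool.Agent.MCD.B2.OK
import Pool.Agent.MTC.B2b.C
import Pool.Agent.MTC.B2s.C
/-!
Cell B2: the assembly of the two sides.
-/
set_option autoImplicit false

open Pool.Agent.MSQ Pool.Agent.MGF Pool.Agent.MTR Pool.Agent.MCA Pool.Agent.MEIS Pool.Agent.MGE

namespace Pool.Agent.MCB

theorem cell_B2 (m : ℝ) (h1 : 715 / 10000 ≤ m) (h2 : m ≤ 81 / 1000) : HasCell m := by
  refine hc_asym MCD.B2.sq MCD.B2.ok 7150 8100 7150 20230720 10000000000 MCD.B2.isC MCD.B2.kok MTC.B2b.F MTC.B2s.F rfl rfl MTC.B2b.ev MTC.B2s.ev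
    MTC.B2s.g.D 1620 MTC.B2b.g.D 103180 715 10000 81 1000 715 10000 (fun _ _ h hβ => MTC.B2s.cert h hβ)
    (fun _ _ h hβ => MTC.B2b.cert h hβ) (by decide +kernel) (by decide +kernel) m ?_ ?_ ?_
  · push_cast
    linarith
  · push_cast
    linarith
  · right
    push_cast
    linarith

end Pool.Agent.MCB
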