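import Pool.Agent.MCB.ASM
import Pool.Agent.MCD.C2.OK
import Pool.Agent.MTC.C2b.C
import Pool.Agent.MTC.C2s.C
/-!
Cell C2: the assembly of the two sides.
-/
set_option autoImplicit false

open Pool.Agent.MSQ Pool.Agent.MGF Pool.Agent.MTR Pool.Agent.MCA Pool.Agent.MEIS Pool.Agent.MGE

namespace Pool.Agent.MCB

theorem cell_C2 (m : ℝ) (h1 : 81 / 1000 ≤ m) (h2 : m ≤ 98 / 1000) : HasCell m := by
  refine hc_asym MCD.C2.sq MCD.C2.ok 8100 9800 6200 22355160 10000000000 MCD.C2.isC MCD.C2.kok MTC.C2b.F MTC.C2s.F rfl rfl MTC.C2b.ev MTC.C2s.ev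
    MTC.C2s.g.D 2430 MTC.C2b.g.D 115933 81 1000 98 1000 62 1000 (fun _ _ h hβ => MTC.C2s.cert h hβ)
    (fun _ _ h hβ => MTC.C2b.cert h hβ) (by decide +kernel) (by decide +kernel) m ?_ ?_ ?_
  · push_cast
    linarith
  · push_cast
    linarith
  · right
    push_cast
    linarith

end Pool.Agent.MCB
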