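import Pool.Agent.MCB.ASM
import Pool.Agent.MCD.D2.OK
import Pool.Agent.MTC.D2b.C
import Pool.Agent.MTC.D2s.C
/-!
Cell D2: the assembly of the two sides.
-/
set_option autoImplicit false

open Pool.Agent.MSQ Pool.Agent.MGF Pool.Agent.MTR Pool.Agent.MCA Pool.Agent.MEIS Pool.Agent.MGE

namespace Pool.Agent.MCB

theorem cell_D2 (m : ℝ) (h1 : 98 / 1000 ≤ m) (h2 : m ≤ 143 / 1000) : HasCell m := by
  refine hc_asym MCD.D2.sq MCD.D2.ok 9800 14300 4500 29217790 10000000000 MCD.D2.isC MCD.D2.kok MTC.D2b.F MTC.D2s.F rfl rfl MTC.D2b.ev MTC.D2s.ev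
    MTC.D2s.g.D 4860 MTC.D2b.g.D 156568 98 1000 143 1000 45 1000 (fun _ _ h hβ => MTC.D2s.cert h hβ)
    (fun _ _ h hβ => MTC.D2b.cert h hβ) (by decide +kernel) (by decide +kernel) m ?_ ?_ ?_
  · push_cast
    linarith
  · push_cast
    linarith
  · right
    push_cast
    linarith

end Pool.Agent.MCB
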