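import Pool.Agent.MCB.ASM
import Pool.Agent.MCD.S0.OK
import Pool.Agent.MTC.S0b.C
import Pool.Agent.MTC.S0s.C
/-!
Cell S0: the assembly of the two sides.
-/
set_option autoImplicit false

open Pool.Agent.MSQ Pool.Agent.MGF Pool.Agent.MTR Pool.Agent.MCA Pool.Agent.MEIS Pool.Agent.MGE

namespace Pool.Agent.MCB

theorem cell_S0 (m : ℝ) (h1 : 3 / 1000 ≤ m) (h2 : m ≤ 6 / 1000) : HasCell m := by
  refine hc_sym MCD.S0.sq MCD.S0.ok 600 1352700 10000000000 MCD.S0.isC MCD.S0.kok rfl MTC.S0b.F MTC.S0s.F rfl rfl MTC.S0s.ev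
    MTC.S0s.g.D 113 MTC.S0b.g.D 6914 3 1000 6 1000 (fun _ _ h hβ => MTC.S0s.cert h hβ)
    (fun _ _ h hβ => MTC.S0b.cert h hβ) (by decide +kernel) (by decide +kernel) m ?_ ?_
  · push_cast
    linarith
  · push_cast
    linarith

end Pool.Agent.MCB
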