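import Pool.Agent.MCB.ASM
import Pool.Agent.MCD.S1.OK
import Pool.Agent.MTC.S1b.C
import Pool.Agent.MTC.S1s.C
/-!
Cell S1: the assembly of the two sides.
-/
set_option autoImplicit false

open Pool.Agent.MSQ Pool.Agent.MGF Pool.Agent.MTR Pool.Agent.MCA Pool.Agent.MEIS Pool.Agent.MGE

namespace Pool.Agent.MCB

theorem cell_S1 (m : ℝ) (h1 : 6 / 1000 ≤ m) (h2 : m ≤ 1 / 100) : HasCell m := by
  refine hc_sym MCD.S1.sq MCD.S1.ok 1000 2594300 10000000000 MCD.S1.isC MCD.S1.kok rfl MTC.S1b.F MTC.S1s.F rfl rfl MTC.S1s.ev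
    MTC.S1s.g.D 260 MTC.S1b.g.D 13395 6 1000 1 100 (fun _ _ h hβ => MTC.S1s.cert h hβ)
    (fun _ _ h hβ => MTC.S1b.cert h hβ) (by decide +kernel) (by decide +kernel) m ?_ ?_
  · push_cast
    linarith
  · push_cast
    linarith

end Pool.Agent.MCB
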